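import Mathlib
import Pool.Agent.H12.Upc

set_option autoImplicit false

namespace Pool.Agent.Results.MP_f32aed_co.Three

open Pool.Agent.H12.Upc

theorem result : ∃ (a n N d : ℕ) (u : ZMod N → Option (Fin a)),
    2 ≤ a ∧ 1 ≤ n ∧ 1 ≤ N ∧ IsUpcycle n u ∧ NonTrivial u ∧ Diamondicity n u d ∧ 1 < d :=
  ⟨2, 12, 512, 3, U, le_rfl, by norm_num, by norm_num, U_up, U_nt, U_d, by norm_num⟩

end Pool.Agent.Results.MP_f32aed_co.Three
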